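import Pool.Agent.Q161.Lyap.Decay

/-!
# The cost matrix of a stable matrix and its Lyapunov equation
-/

open MeasureTheory Filter Topology Matrix Polynomial Set
open scoped Matrix.Norms.L2Operator ComplexOrder

namespace Pool.Agent.Q161.Lyap

variable {n : ℕ}

/-- All the eigenvalues have negative real part. -/
def IsStable (T : Matrix (Fin n) (Fin n) ℂ) : Prop := ∀ z ∈ spectrum ℂ T, z.re < 0

/-- The decay rate `min {-Re λ : λ an eigenvalue of T}`. -/
noncomputable def decayRate (T : Matrix (Fin n) (Fin n) ℂ) : ℝ :=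
  sInf ((fun z : ℂ => -z.re) '' spectrum ℂ T)

/-- The cost matrix `∫_0^∞ e^{T^* t} e^{T t} dt`. -/
noncomputable def costMatrix (T : Matrix (Fin n) (Fin n) ℂ) : Matrix (Fin n) (Fin n) ℂ :=
  ∫ t in Ioi (0 : ℝ), NormedSpace.exp (t • Tᴴ) * NormedSpace.exp (t • T)

lemma spectrum_finite (T : Matrix (Fin n) (Fin n) ℂ) : (spectrum ℂ T).Finite := by
  have : spectrum ℂ T = {z | IsRoot T.charpoly z} := by
    ext z; exact mem_spectrum_iff_isRoot_charpoly
  rw [this]
  exact Polynomial.finite_setOf_isRoot (charpoly_monic T).ne_zero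

lemma decayRate_le (T : Matrix (Fin n) (Fin n) ℂ) {z : ℂ} (hz : z ∈ spectrum ℂ T) :
    z.re ≤ -decayRate T := by
  have : decayRate T ≤ -z.re :=
    csInf_le ((spectrum_finite T).image _).bddBelow ⟨z, hz, rfl⟩
  linarith

lemma decayRate_pos (hn : 0 < n) {T : Matrix (Fin n) (Fin n) ℂ} (hT : IsStable T) :
    0 < decayRate T := by
  haveI : Nonempty (Fin n) := ⟨⟨0, hn⟩⟩
  have hne : (spectrum ℂ T).Nonempty := spectrum.nonempty_of_isAlgClosed_of_finiteDimensional ℂ T
  have hmem : decayRate T ∈ ((fun z : ℂ => -z.re) '' spectrum ℂ T) :=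
    (hne.image _).csInf_mem ((spectrum_finite T).image _)
  obtain ⟨z, hz, hzz⟩ := hmem
  rw [← hzz]
  have := hT z hz
  simp only
  linarith

/-- The integrand. -/
noncomputable def integrand (T : Matrix (Fin n) (Fin n) ℂ) (t : ℝ) : Matrix (Fin n) (Fin n) ℂ :=
  NormedSpace.exp (t • Tᴴ) * NormedSpace.exp (t • T)

lemma exp_conjTranspose' (T : Matrix (Fin n) (Fin n) ℂ) (t : ℝ) :
    NormedSpace.exp (t • Tᴴ) = (NormedSpace.exp (t • T))ᴴ := by
  rw [← Matrix.exp_conjTranspose]
  congr 1
  ext i j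
  simp [conjTranspose_apply]

lemma hasDerivAt_integrand (T : Matrix (Fin n) (Fin n) ℂ) (t : ℝ) :
    HasDerivAt (integrand T) (Tᴴ * integrand T t + integrand T t * T) t := by
  have h1 := hasDerivAt_exp_smul_const' (𝕂 := ℝ) Tᴴ t
  have h2 := hasDerivAt_exp_smul_const (𝕂 := ℝ) T t
  refine (h1.mul h2).congr_deriv ?_
  simp only [integrand, mul_assoc]

lemma norm_integrand_le {T : Matrix (Fin n) (Fin n) ℂ} (hn : 0 < n) (hT : IsStable T) :
    ∃ K a : ℝ, 0 ≤ K ∧ 0 < a ∧ ∀ t : ℝ, 0 ≤ t → ‖integrand T t‖ ≤ K * Real.exp (-a * t) := by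
  have hγ := decayRate_pos hn hT
  obtain ⟨K, hK0, hK⟩ := exp_decay T (a := decayRate T / 2) (γ := decayRate T) (by linarith)
    (fun z hz => decayRate_le T hz)
  refine ⟨K ^ 2, decayRate T, by positivity, hγ, fun t ht => ?_⟩
  have h := hK t ht
  calc ‖integrand T t‖ ≤ ‖NormedSpace.exp (t • Tᴴ)‖ * ‖NormedSpace.exp (t • T)‖ :=
        norm_mul_le _ _
    _ = ‖NormedSpace.exp (t • T)‖ * ‖NormedSpace.exp (t • T)‖ := by
        rw [exp_conjTranspose', l2_opNorm_conjTranspose]
    _ ≤ (K * Real.exp (-(decayRate T / 2) * t)) * (K * Real.exp (-(decayRate T / 2) * t)) := by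
        gcongr
    _ = K ^ 2 * Real.exp (-decayRate T * t) := by
        have : Real.exp (-decayRate T * t)
            = Real.exp (-(decayRate T / 2) * t) * Real.exp (-(decayRate T / 2) * t) := by
          rw [← Real.exp_add]; congr 1; ring
        rw [this]; ring

lemma integrable_integrand {T : Matrix (Fin n) (Fin n) ℂ} (hn : 0 < n) (hT : IsStable T) :
    IntegrableOn (integrand T) (Ioi 0) := by
  obtain ⟨K, a, hK0, ha, hK⟩ := norm_integrand_le hn hT
  have h1 : IntegrableOn (fun t : ℝ => K * Real.exp (-a * t)) (Ioi 0) :=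
    (exp_neg_integrableOn_Ioi 0 ha).const_mul K
  refine h1.mono' ?_ ?_
  · have : Continuous (integrand T) :=
      continuous_iff_continuousAt.mpr fun t => (hasDerivAt_integrand T t).continuousAt
    exact this.aestronglyMeasurable
  · rw [ae_restrict_iff' measurableSet_Ioi]
    exact Eventually.of_forall fun t ht => hK t (le_of_lt ht)

lemma tendsto_integrand {T : Matrix (Fin n) (Fin n) ℂ} (hn : 0 < n) (hT : IsStable T) :
    Tendsto (integrand T) atTop (𝓝 0) := by
  obtain ⟨K, a, hK0, ha, hK⟩ := norm_integrand_le hn hT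
  have h0 : Tendsto (fun t : ℝ => K * Real.exp (-a * t)) atTop (𝓝 0) := by
    have h1 : Tendsto (fun t : ℝ => -a * t) atTop atBot :=
      tendsto_id.const_mul_atTop_of_neg (by linarith)
    simpa using (Real.tendsto_exp_atBot.comp h1).const_mul K
  refine squeeze_zero_norm' ?_ h0
  filter_upwards [eventually_ge_atTop 0] with t ht using hK t ht

/-- The Lyapunov equation. -/
theorem lyapunov {T : Matrix (Fin n) (Fin n) ℂ} (hn : 0 < n) (hT : IsStable T) :
    Tᴴ * costMatrix T + costMatrix T * T = -1 := by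
  have hint := integrable_integrand hn hT
  -- left and right multiplication as continuous linear maps
  let L : Matrix (Fin n) (Fin n) ℂ →L[ℝ] Matrix (Fin n) (Fin n) ℂ :=
    (ContinuousLinearMap.mul ℝ (Matrix (Fin n) (Fin n) ℂ)) Tᴴ
      + (ContinuousLinearMap.mul ℝ (Matrix (Fin n) (Fin n) ℂ)).flip T
  have hL : ∀ X, L X = Tᴴ * X + X * T := fun X => rfl
  have h1 : ∫ t in Ioi (0 : ℝ), L (integrand T t) = L (costMatrix T) := by
    rw [ContinuousLinearMap.integral_comp_comm L hint]; rfl
  have h2 : ∫ t in Ioi (0 : ℝ), L (integrand T t) = 0 - integrand T 0 := by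
    apply integral_Ioi_of_hasDerivAt_of_tendsto' (f := integrand T)
    · intro x _; exact hasDerivAt_integrand T x
    · exact L.integrable_comp hint
    · exact tendsto_integrand hn hT
  rw [h1, hL] at h2
  rw [h2]
  simp [integrand]

lemma costMatrix_isHermitian (T : Matrix (Fin n) (Fin n) ℂ) (hn : 0 < n) (hT : IsStable T) :
    (costMatrix T).IsHermitian := by
  have hint := integrable_integrand hn hT
  let S : Matrix (Fin n) (Fin n) ℂ →L[ℝ] Matrix (Fin n) (Fin n) ℂ :=
    (starL' ℝ : Matrix (Fin n) (Fin n) ℂ ≃L[ℝ] Matrix (Fin n) (Fin n) ℂ)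
  have hS : ∀ X, S X = Xᴴ := fun X => rfl
  have h1 : ∫ t in Ioi (0 : ℝ), S (integrand T t) = S (costMatrix T) := by
    rw [ContinuousLinearMap.integral_comp_comm S hint]; rfl
  rw [hS] at h1
  unfold IsHermitian
  rw [← h1]
  show _ = ∫ t in Ioi (0 : ℝ), integrand T t
  congr 1
  funext t
  rw [hS, integrand, conjTranspose_mul, exp_conjTranspose', conjTranspose_conjTranspose]

/-- The quadratic form of the cost matrix. -/
lemma costMatrix_quad (T : Matrix (Fin n) (Fin n) ℂ) (hn : 0 < n) (hT : IsStable T)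
    (x : Fin n → ℂ) : 0 ≤ (star x ⬝ᵥ (costMatrix T *ᵥ x)) := by
  have hint := integrable_integrand hn hT
  let Q : Matrix (Fin n) (Fin n) ℂ →ₗ[ℝ] ℂ :=
    { toFun := fun X => star x ⬝ᵥ (X *ᵥ x)
      map_add' := by intro X Y; rw [add_mulVec, dotProduct_add]
      map_smul' := by
        intro r X
        rw [smul_mulVec, dotProduct_smul]; rfl }
  let QL : Matrix (Fin n) (Fin n) ℂ →L[ℝ] ℂ := LinearMap.toContinuousLinearMap Q
  have hQ : ∀ X, QL X = star x ⬝ᵥ (X *ᵥ x) := fun X => rfl
  have h1 : ∫ t in Ioi (0 : ℝ), QL (integrand T t) = QL (costMatrix T) := by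
    rw [ContinuousLinearMap.integral_comp_comm QL hint]; rfl
  rw [← hQ, ← h1]
  apply integral_nonneg
  intro t
  simp only [hQ, integrand]
  rw [exp_conjTranspose', ← mulVec_mulVec, dotProduct_mulVec, ← star_mulVec]
  exact dotProduct_star_self_nonneg _

lemma costMatrix_posDef (T : Matrix (Fin n) (Fin n) ℂ) (hn : 0 < n) (hT : IsStable T) :
    (costMatrix T).PosDef := by
  have hPSD : (costMatrix T).PosSemidef :=
    PosSemidef.of_dotProduct_mulVec_nonneg (costMatrix_isHermitian T hn hT)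
      (costMatrix_quad T hn hT)
  refine PosDef.of_dotProduct_mulVec_pos (costMatrix_isHermitian T hn hT) ?_
  intro x hx
  refine lt_of_le_of_ne (costMatrix_quad T hn hT x) ?_
  intro h0
  have hker : costMatrix T *ᵥ x = 0 := (hPSD.dotProduct_mulVec_zero_iff x).mp h0.symm
  have hker2 : star x ᵥ* costMatrix T = 0 := by
    have := congrArg star hker
    rw [star_mulVec, costMatrix_isHermitian T hn hT] at this
    simpa using this
  have hly := lyapunov hn hT
  have h2 : star x ⬝ᵥ ((Tᴴ * costMatrix T + costMatrix T * T) *ᵥ x) = 0 := by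
    rw [add_mulVec, dotProduct_add, ← mulVec_mulVec, hker, mulVec_zero, dotProduct_zero,
      ← mulVec_mulVec, dotProduct_mulVec, hker2, zero_dotProduct, add_zero]
  rw [hly, neg_mulVec, one_mulVec, dotProduct_neg, neg_eq_zero] at h2
  exact hx (dotProduct_star_self_eq_zero.mp h2)

end Pool.Agent.Q161.Lyap
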