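import Mathlib

/-!
# Exponential decay of the exponential of a stable matrix
-/

open MeasureTheory Filter Topology Matrix Polynomial
open scoped Matrix.Norms.L2Operator

namespace Pool.Agent.Q161.Lyap

variable {n : ℕ}

/-- Backward induction along a list of roots. -/
lemma decay_aux (T : Matrix (Fin n) (Fin n) ℂ) {a γ : ℝ} (ha : a < γ) (s : Multiset ℂ) :
    (∀ z ∈ s, z.re ≤ -γ) → ∀ B : Matrix (Fin n) (Fin n) ℂ,
      (aeval T (s.map (fun z => X - C z)).prod) * B = 0 →
      ∃ K : ℝ, 0 ≤ K ∧ ∀ t : ℝ, 0 ≤ t → ‖NormedSpace.exp (t • T) * B‖ ≤ K * Real.exp (-a * t) := by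
  induction s using Multiset.induction_on with
  | empty =>
    intro _ B hB
    simp only [Multiset.map_zero, Multiset.prod_zero, map_one, one_mul] at hB
    exact ⟨0, le_rfl, fun t _ => by simp [hB]⟩
  | cons z s ih =>
    intro hz B hB
    obtain ⟨K, hK0, hK⟩ := ih (fun w hw => hz w (Multiset.mem_cons_of_mem hw))
      ((T - algebraMap ℂ (Matrix (Fin n) (Fin n) ℂ) z) * B) (by
        rw [← mul_assoc]
        have : aeval T (s.map (fun z => X - C z)).prod
            * (T - algebraMap ℂ (Matrix (Fin n) (Fin n) ℂ) z)
            = aeval T (((z ::ₘ s).map (fun z => X - C z)).prod) := by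
          rw [Multiset.map_cons, Multiset.prod_cons, mul_comm (X - C z), map_mul]
          simp
        rw [this]; exact hB)
    have hzre : z.re ≤ -γ := hz z (Multiset.mem_cons_self z s)
    set c : ℝ := -z.re - a with hc
    have hcpos : 0 < c := by rw [hc]; linarith
    refine ⟨‖B‖ + K / c, by positivity, ?_⟩
    intro t ht
    -- the function `g t = exp (-z t) exp (t T) B`
    set g : ℝ → Matrix (Fin n) (Fin n) ℂ :=
      fun t => Complex.exp (-z * (t : ℂ)) • (NormedSpace.exp (t • T) * B) with hg
    have hder : ∀ t : ℝ, HasDerivAt g (Complex.exp (-z * (t : ℂ)) •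
        (NormedSpace.exp (t • T) *
          ((T - algebraMap ℂ (Matrix (Fin n) (Fin n) ℂ) z) * B))) t := by
      intro t
      have h1 : HasDerivAt (fun t : ℝ => NormedSpace.exp (t • T) * B)
          ((NormedSpace.exp (t • T) * T) * B) t :=
        (hasDerivAt_exp_smul_const (𝕂 := ℝ) T t).mul_const B
      have h2 : HasDerivAt (fun t : ℝ => Complex.exp (-z * (t : ℂ)))
          (Complex.exp (-z * (t : ℂ)) * (-z)) t := by
        have h3 : HasDerivAt (fun t : ℝ => -z * (t : ℂ)) (-z) t := by
          have := (Complex.ofRealCLM.hasDerivAt (x := t)).const_mul (-z)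
          simpa using this
        exact h3.cexp
      have h4 := h2.smul h1
      refine h4.congr_deriv ?_
      rw [mul_smul, ← smul_add]
      congr 1
      rw [sub_mul, mul_sub, mul_assoc]
      rw [Algebra.algebraMap_eq_smul_one, smul_mul_assoc, one_mul, mul_smul_comm, neg_smul]
      abel
    have hnorm : ∀ t : ℝ, ‖Complex.exp (-z * (t : ℂ))‖ = Real.exp (-z.re * t) := by
      intro t
      rw [Complex.norm_exp]
      congr 1
      simp
    have key := image_norm_le_of_norm_deriv_right_le_deriv_boundary (f := g) (a := 0) (b := t)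
      (f' := fun t => Complex.exp (-z * (t : ℂ)) •
        (NormedSpace.exp (t • T) *
          ((T - algebraMap ℂ (Matrix (Fin n) (Fin n) ℂ) z) * B)))
      (fun x _ => (hder x).continuousAt.continuousWithinAt)
      (fun x _ => (hder x).hasDerivWithinAt)
      (B := fun x => ‖B‖ + K / c * Real.exp (c * x))
      (B' := fun x => K * Real.exp (c * x))
      (by
        simp only [hg, Complex.ofReal_zero, mul_zero, Complex.exp_zero, zero_smul,
          NormedSpace.exp_zero, one_mul, one_smul, Real.exp_zero, mul_one]
        have : 0 ≤ K / c := by positivity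
        linarith)
      (by
        intro x
        have h1 : HasDerivAt (fun x : ℝ => c * x) c x := by
          simpa using (hasDerivAt_id x).const_mul c
        have h2 := (h1.exp.const_mul (K / c)).const_add ‖B‖
        refine h2.congr_deriv ?_
        field_simp)
      (by
        intro x hx
        rw [norm_smul, hnorm]
        have h1 := hK x hx.1
        calc Real.exp (-z.re * x) * ‖NormedSpace.exp (x • T) *
              ((T - algebraMap ℂ (Matrix (Fin n) (Fin n) ℂ) z) * B)‖
            ≤ Real.exp (-z.re * x) * (K * Real.exp (-a * x)) := by gcongr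
          _ = K * Real.exp (c * x) := by
            rw [hc]
            have : (-z.re - a) * x = -z.re * x + -a * x := by ring
            rw [this, Real.exp_add]; ring)
      (Set.right_mem_Icc.mpr ht)
    have hgt : ‖g t‖ = Real.exp (-z.re * t) * ‖NormedSpace.exp (t • T) * B‖ := by
      rw [hg, norm_smul, hnorm]
    rw [hgt] at key
    have e1 : ‖NormedSpace.exp (t • T) * B‖
        = Real.exp (z.re * t) * (Real.exp (-z.re * t) * ‖NormedSpace.exp (t • T) * B‖) := by
      rw [← mul_assoc, ← Real.exp_add]; simp
    rw [e1]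
    calc Real.exp (z.re * t) * (Real.exp (-z.re * t) * ‖NormedSpace.exp (t • T) * B‖)
        ≤ Real.exp (z.re * t) * (‖B‖ + K / c * Real.exp (c * t)) := by gcongr
      _ = ‖B‖ * Real.exp (z.re * t) + K / c * Real.exp (-a * t) := by
          have : Real.exp (-a * t) = Real.exp (z.re * t) * Real.exp (c * t) := by
            rw [← Real.exp_add, hc]; congr 1; ring
          rw [this]; ring
      _ ≤ ‖B‖ * Real.exp (-a * t) + K / c * Real.exp (-a * t) := by
          have : z.re * t ≤ -a * t := by nlinarith
          gcongr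
      _ = (‖B‖ + K / c) * Real.exp (-a * t) := by ring

/-- Exponential decay: if all the eigenvalues have real part at most `-γ` then for every `a < γ`
the matrix exponential is `O(e^{-a t})`. -/
theorem exp_decay (T : Matrix (Fin n) (Fin n) ℂ) {a γ : ℝ} (ha : a < γ)
    (h : ∀ z ∈ spectrum ℂ T, z.re ≤ -γ) :
    ∃ K : ℝ, 0 ≤ K ∧ ∀ t : ℝ, 0 ≤ t → ‖NormedSpace.exp (t • T)‖ ≤ K * Real.exp (-a * t) := by
  have hsp := (IsAlgClosed.splits T.charpoly).eq_prod_roots_of_monic (charpoly_monic T)
  obtain ⟨K, hK0, hK⟩ := decay_aux T ha T.charpoly.roots (by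
    intro z hz
    apply h
    rw [mem_spectrum_iff_isRoot_charpoly]
    exact (mem_roots'.mp hz).2) 1 (by
      rw [← hsp, aeval_self_charpoly, zero_mul])
  exact ⟨K, hK0, fun t ht => by simpa using hK t ht⟩

end Pool.Agent.Q161.Lyap
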